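import Pool.Agent.ABC3.Stmts

set_option autoImplicit false

namespace Pool.Agent.ABC3.H33

open Matrix

theorem good_of_empty {K Q : Type} [Field K] [CharP K 3] [AddCommGroup Q] [Module K Q]
    [FiniteDimensional K Q] (ι : Type) [Fintype ι] [DecidableEq ι] (ev : ι → (Q →ₗ[K] K))
    (h : Fintype.card ι = 0) (hpos : 0 < Module.finrank K Q) : Good ev := by
  intro e _
  rw [h]
  constructor
  · intro d hd v hv _
    funext s
    by_contra hs
    have h1 := hv s hs
    have h2 : 0 ≤ sdeg s := by
      unfold sdeg
      positivity
    have h3 : (TSys ev).deg s = sdeg s := rfl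
    unfold thr at hd
    push_cast at hd
    omega
  · intro d hd
    exfalso
    unfold thr at hd
    push_cast at hd
    omega

theorem ind (str : STRStmt) (sta : STAStmt) (stb : STBStmt) : INDStmt := by
  intro K _ _ n
  induction n with
  | zero =>
    intro Q _ _ _ ι _ _ ev _ _ h
    omega
  | succ n ih =>
    intro Q _ _ _ ι _ _ ev hev hpos hlt
    by_cases hn : Module.finrank K Q < n
    · exact ih Q ι ev hev hpos hn
    · have hQ : Module.finrank K Q = n := by omega
      clear hn hlt
      have main : ∀ k : ℕ, ∀ (ι : Type) [Fintype ι] [DecidableEq ι] (ev : ι → (Q →ₗ[K] K)),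
          (∀ c, ev c ≠ 0) → Fintype.card ι = k → Good ev := by
        intro k
        induction k with
        | zero =>
          intro ι _ _ ev _ hk
          exact good_of_empty ι ev hk hpos
        | succ k ihk =>
          intro ι _ _ ev hev hk
          have : Nonempty ι := Fintype.card_pos_iff.1 (by omega)
          obtain ⟨a⟩ := this
          let σ : {c // c ≠ a} ⊕ Unit ≃ ι :=
            (Equiv.optionEquivSumPUnit _).symm.trans (Equiv.optionSubtypeNe a)
          have hcard : Fintype.card {c // c ≠ a} = k := by
            have h1 := Fintype.card_congr σ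
            rw [Fintype.card_sum, Fintype.card_unit] at h1
            omega
          have hg : Good (fun i => ev (σ (Sum.inl i))) :=
            ihk {c // c ≠ a} (fun i => ev (σ (Sum.inl i))) (fun i => hev _) hcard
          have hstar : ∀ e', IsCap (TSys (fun i => ev (σ (Sum.inl i)))) e' →
              ∀ P : Submodule K Q, P ≠ ⊥ → P ≠ ⊤ → ∀ D : ℤ,
              2 * D < thr (Fintype.card {c // c ≠ a}) (Module.finrank K Q) + 3 →
              StarP (TSys (fun i => ev (σ (Sum.inl i)))) (fun i => ev (σ (Sum.inl i))) e' P D := by
            intro e' he' P hP0 hP1 D hD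
            refine str K Q {c // c ≠ a} (fun i => ev (σ (Sum.inl i))) (fun i => hev _) ?_ e' he'
              P hP0 hP1 D hD
            rw [hQ]
            exact ih
          intro e he
          exact ⟨sta K Q ι {c // c ≠ a} σ ev hev hpos hg hstar e he,
            stb K Q ι {c // c ≠ a} σ ev hev hpos hg hstar e he⟩
      exact main (Fintype.card ι) ι ev hev rfl

end Pool.Agent.ABC3.H33
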