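import Pool.Agent.ABC3.Stmts

set_option autoImplicit false

namespace Pool.Agent.ABC3.H33

open Matrix

section

variable {R : Type} [Ring R] {n : ℕ} (A : Fin n → R) (hA : ∀ i j, A i * A j = A j * A i)

include hA in
theorem prod_perm {m m' : List (Fin n)} (h : m.Perm m') : (m.map A).prod = (m'.map A).prod :=
  (h.map A).prod_eq' (List.pairwise_map.2 (List.pairwise_of_forall fun x y => hA x y))

include hA in
theorem prod_count_three (h3 : ∀ i, A i * A i * A i = 0) (m : List (Fin n)) (i : Fin n)
    (hi : 3 ≤ m.count i) : (m.map A).prod = 0 := by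
  have h1 : (List.replicate 3 i).Sublist m := List.replicate_sublist_iff.2 hi
  obtain ⟨l, hl⟩ := h1.exists_perm_append
  rw [prod_perm A hA hl]
  have : List.replicate 3 i = [i, i, i] := rfl
  rw [this]
  simp only [List.cons_append, List.nil_append, List.map_cons, List.prod_cons]
  rw [← mul_assoc, ← mul_assoc, h3, zero_mul]

theorem sum_count (m : List (Fin n)) : ∑ i, m.count i = m.length := by
  have := Multiset.sum_count_eq_card (s := (Finset.univ : Finset (Fin n))) (m := (m : Multiset (Fin n)))
    (by intro a _; exact Finset.mem_univ a)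
  simpa using this

include hA in
theorem prod_all_two (m : List (Fin n)) (h : ∀ i, m.count i = 2) :
    (m.map A).prod = (List.ofFn (fun i => A i * A i)).prod := by
  have h1 : m.Perm ((List.ofFn (fun i : Fin n => [i, i])).flatten) := by
    rw [List.perm_iff_count]
    intro i
    rw [h i, List.count_flatten, List.map_ofFn, List.sum_ofFn]
    simp only [Function.comp]
    rw [Finset.sum_eq_single i]
    · simp
    · intro j _ hj
      simp [List.count_cons, hj]
    · intro h; exact absurd (Finset.mem_univ _) h
  rw [prod_perm A hA h1, List.map_flatten, List.prod_flatten, List.map_ofFn, List.map_ofFn]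
  congr 2
  funext i
  simp

include hA in
theorem prod_len (h3 : ∀ i, A i * A i * A i = 0) (m : List (Fin n)) (hm : m.length = 2 * n) :
    (m.map A).prod = 0 ∨ (m.map A).prod = (List.ofFn (fun i => A i * A i)).prod := by
  by_cases h : ∃ i, 3 ≤ m.count i
  · obtain ⟨i, hi⟩ := h
    exact Or.inl (prod_count_three A hA h3 m i hi)
  · right
    push Not at h
    refine prod_all_two A hA m ?_
    by_contra hne
    push Not at hne
    obtain ⟨i, hi⟩ := hne
    have hlt : ∑ i, m.count i < ∑ _i : Fin n, 2 := by
      refine Finset.sum_lt_sum (fun j _ => by have := h j; omega) ⟨i, Finset.mem_univ _, ?_⟩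
      have := h i
      omega
    rw [sum_count, hm] at hlt
    simp at hlt
    omega

end

theorem sqr : SQRStmt := by
  intro K Q B _ _ _ _ _ S n b v hv l hl
  have hA : ∀ i j, S.act (b i) * S.act (b j) = S.act (b j) * S.act (b i) := fun i j => S.comm _ _
  have h3 : ∀ i, S.act (b i) * S.act (b i) * S.act (b i) = 0 := fun i => S.cube _
  have hspan : ∀ l : List Q, (l.map (fun p => S.act p)).prod ∈
      Submodule.span K {M : Matrix B B K | ∃ m : List (Fin n), m.length = l.length ∧
        M = (m.map (fun i => S.act (b i))).prod} := by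
    intro l
    induction l with
    | nil => exact Submodule.subset_span ⟨[], rfl, rfl⟩
    | cons p l ih =>
      rw [List.map_cons, List.prod_cons]
      have hp : S.act p = ∑ i, b.repr p i • S.act (b i) := by
        conv_lhs => rw [← b.sum_repr p]
        rw [map_sum]
        simp only [map_smul]
      rw [hp, Finset.sum_mul]
      refine Submodule.sum_mem _ fun i _ => ?_
      rw [Matrix.smul_mul]
      refine Submodule.smul_mem _ _ ?_
      refine Submodule.span_induction (p := fun x _ => S.act (b i) * x ∈
        Submodule.span K {M : Matrix B B K | ∃ m : List (Fin n), m.length = (p :: l).length ∧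
        M = (m.map (fun i => S.act (b i))).prod}) ?_ ?_ ?_ ?_ ih
      · rintro x ⟨m, hm, rfl⟩
        exact Submodule.subset_span ⟨i :: m, by simp [hm], by simp⟩
      · rw [mul_zero]; exact Submodule.zero_mem _
      · intro x y _ _ hx hy
        rw [mul_add]; exact Submodule.add_mem _ hx hy
      · intro a x _ hx
        rw [Matrix.mul_smul]; exact Submodule.smul_mem _ _ hx
  refine Submodule.span_induction (p := fun x _ => x.mulVec v = 0) ?_ ?_ ?_ ?_ (hspan l)
  · rintro x ⟨m, hm, rfl⟩
    rcases prod_len (fun i => S.act (b i)) hA h3 m (hm.trans hl) with h | h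
    · rw [h, Matrix.zero_mulVec]
    · rw [h, hv]
  · exact Matrix.zero_mulVec _
  · intro x y _ _ hx hy
    rw [Matrix.add_mulVec, hx, hy, add_zero]
  · intro a x _ hx
    rw [Matrix.smul_mulVec, hx, smul_zero]

end Pool.Agent.ABC3.H33
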